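import Pool.Agent.J6H38.DX.Stm2
import Pool.Agent.J6H58.DX.PlanB
import Pool.Agent.J6H38.DIR.Defs
import Pool.Agent.J6H67.NX.Res13

/-!
# Directions of all geodesic rays: from the canonical model to the final form
-/

set_option autoImplicit false

open MeasureTheory ProbabilityTheory Filter Topology
open scoped ENNReal

namespace Pool.Agent.J6H38.DX

open Pool.Agent.J6H38.DIR
open Pool.Agent.J6H99.NX Pool.Agent.J6H9.NX Pool.Agent.J6H67.NX

variable {e : ℕ}

/-! ### paths -/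

lemma pt_eq (q : Par) {ω : Om e} (h : ∀ s : Sym2 (V e), IsEdge s → q.w (ω s) = ω s) (L : ℕ)
    (p : ℕ → V e) (hp : ∀ k < L, ∑ i, |p k i - p (k + 1) i| = 1) :
    pt ω L p = ∑ k ∈ Finset.range L, q.w (ω s(p k, p (k + 1))) := by
  refine Finset.sum_congr rfl fun k hk => ?_
  rw [h _ (isEdge_of_adj (hp k (Finset.mem_range.1 hk)))]

lemma exists_walk (x y : V e) : Nonempty ((lat e).Walk x y) := inferInstance

lemma passage_eq (q : Par) {ω : Om e} (h : ∀ s : Sym2 (V e), IsEdge s → q.w (ω s) = ω s)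
    (x y : V e) : passage ω x y = T q ω x y := by
  have hbd : ∀ r ∈ {r : ℝ | ∃ (L : ℕ) (p : ℕ → V e), IsPath x y L p ∧ r = pt ω L p},
      T q ω x y ≤ r := by
    rintro r ⟨L, p, ⟨h0, hL, hs, -⟩, rfl⟩
    obtain ⟨W, hW⟩ := exists_walk_seq q ω p L hs
    have h6 := T_le q ω W
    rw [hW, h0, hL] at h6
    rw [pt_eq q h L p hs]
    exact h6
  have hpath : ∀ W : (lat e).Walk x y,
      ∃ r ∈ {r : ℝ | ∃ (L : ℕ) (p : ℕ → V e), IsPath x y L p ∧ r = pt ω L p}, r ≤ cost q ω W := by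
    intro W
    have hadj : ∀ k < W.bypass.length,
        ∑ i, |W.bypass.getVert k i - W.bypass.getVert (k + 1) i| = 1 := fun k hk =>
      W.bypass.adj_getVert_succ hk
    refine ⟨_, ⟨W.bypass.length, W.bypass.getVert, ⟨W.bypass.getVert_zero,
      W.bypass.getVert_length, hadj, ?_⟩, rfl⟩, ?_⟩
    · intro m hm n hn hmn
      exact (W.bypass_isPath).getVert_injOn hm hn hmn
    · rw [pt_eq q h _ _ hadj, ← Pool.Agent.J6H54.NX.cost_eq_sum]
      exact Pool.Agent.J6H54.NX.cost_bypass q ω W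
  have hne : {r : ℝ | ∃ (L : ℕ) (p : ℕ → V e), IsPath x y L p ∧ r = pt ω L p}.Nonempty := by
    obtain ⟨W⟩ := exists_walk x y
    obtain ⟨r, hr, -⟩ := hpath W
    exact ⟨r, hr⟩
  refine le_antisymm ?_ (le_csInf hne hbd)
  have : Nonempty ((lat e).Walk x y) := exists_walk x y
  refine le_ciInf fun W => ?_
  obtain ⟨r, hr, hle⟩ := hpath W
  exact (csInf_le ⟨_, hbd⟩ hr).trans hle

lemma isGeod_iff (q : Par) {ω : Om e} (h : ∀ s : Sym2 (V e), IsEdge s → q.w (ω s) = ω s)
    (u : V e) (γ : ℕ → V e) : IsGeod ω u γ ↔ RayU q ω u γ := by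
  have key : (∀ k, ∑ i, |γ k i - γ (k + 1) i| = 1) → ∀ m n : ℕ, m ≤ n →
      (pt ω (n - m) (fun k => γ (m + k)) = passage ω (γ m) (γ n) ↔
        T q ω (γ m) (γ n) = ∑ k ∈ Finset.Ico m n, q.w (ω s(γ k, γ (k + 1)))) := by
    intro hadj m n hmn
    have h1 : pt ω (n - m) (fun k => γ (m + k)) =
        ∑ k ∈ Finset.Ico m n, q.w (ω s(γ k, γ (k + 1))) := by
      rw [pt_eq q h _ _ (fun k _ => hadj (m + k)), Finset.sum_Ico_eq_sum_range]
      rfl
    rw [h1, passage_eq q h]
    exact eq_comm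
  constructor
  · rintro ⟨h0, hinj, hadj, hm⟩
    exact ⟨h0, hadj, hinj, fun m n hmn => (key hadj m n hmn).1 (hm m n hmn)⟩
  · rintro ⟨h0, hadj, hinj, hm⟩
    exact ⟨h0, hinj, hadj, fun m n hmn => (key hadj m n hmn).2 (hm m n hmn)⟩

lemma rayU_imp (q : Par) {ω ω' : Om e} (h : ∀ s, IsEdge s → ω s = ω' s) {u : V e} {x : ℕ → V e}
    (hx : RayU q ω u x) : RayU q ω' u x := by
  obtain ⟨h0, h1, h2, h3⟩ := hx
  refine ⟨h0, h1, h2, fun m n hmn => ?_⟩
  rw [← T_congr q h, h3 m n hmn]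
  refine Finset.sum_congr rfl fun k _ => ?_
  rw [h _ (isEdge_of_adj (h1 k))]

lemma dirs_imp {q : Par} {F : Measure ℝ} [IsProbabilityMeasure F] {ω ω' : Om e}
    (h : ∀ s, IsEdge s → ω s = ω' s) {u : V e} (hx : Dirs q F ω u) : Dirs q F ω' u := by
  have h' : ∀ s, IsEdge s → ω' s = ω s := fun s hs => (h s hs).symm
  refine ⟨fun x hr => hx.1 x (rayU_imp q h' hr), fun c y hy hc => ?_⟩
  obtain ⟨x, hr, hd⟩ := hx.2 c y hy hc
  exact ⟨x, rayU_imp q h hr, hd⟩

/-! ### the derivative of the time constant -/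

variable {q : Par} {F : Measure ℝ} [IsProbabilityMeasure F] [MB q F]

/-- the linear functional with coefficients `c` -/
noncomputable def dtL (c : E e) : E e →L[ℝ] ℝ :=
  ∑ i, c i • (ContinuousLinearMap.proj i : E e →L[ℝ] ℝ)

lemma dtL_apply (c y : E e) : dtL c y = dt c y := by
  simp [dtL, dt]

lemma nr_le_norm (z : E e) : nr z ≤ ((e : ℝ) + 2) * ‖z‖ := by
  unfold nr
  calc ∑ i, |z i| ≤ ∑ _i : Fin (e + 2), ‖z‖ := Finset.sum_le_sum fun i _ => norm_le_pi_norm z i
    _ = ((e : ℝ) + 2) * ‖z‖ := by simp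

lemma hasFDerivAt_L {c y : E e} (hs : Supp q F c y) (hd : Dif q F c y) :
    HasFDerivAt (L q F) (dtL c) y := by
  obtain ⟨hc, hcy⟩ := supp_iff.1 hs
  rw [hasFDerivAt_iff_isLittleO_nhds_zero, Asymptotics.isLittleO_iff]
  intro δ hδ
  have he : (0 : ℝ) < (e : ℝ) + 2 := by positivity
  obtain ⟨s0, hs0, h⟩ := hd.2 (δ / ((e : ℝ) + 2)) (by positivity)
  have h0 : Tendsto (fun z : E e => nr z) (𝓝 0) (𝓝 (nr (0 : E e))) :=
    Pool.Agent.J6H58.DX.continuous_nr.tendsto 0
  rw [nr_zero] at h0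
  filter_upwards [(tendsto_order.1 h0).2 s0 hs0] with z hz
  rw [dtL_apply]
  have h2 : dt c (y + z) ≤ L q F (y + z) := dt_le_L hc _
  rw [dt_add] at h2
  have h3 : L q F (y + z) ≤ dt c (y + z) + δ / ((e : ℝ) + 2) * nr z := by
    rcases eq_or_ne z 0 with rfl | hz0
    · rw [add_zero, nr_zero, hcy]; linarith
    · have hpos : 0 < nr z := by
        refine lt_of_le_of_ne (nr_nonneg z) fun h' => hz0 ?_
        funext i
        have h4 : |z i| ≤ nr z := by
          unfold nr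
          exact Finset.single_le_sum (f := fun i => |z i|) (fun j _ => abs_nonneg _)
            (Finset.mem_univ i)
        rw [← h'] at h4
        simpa using abs_nonpos_iff.1 h4
      have h1 := h (nr z) hpos hz.le ((nr z)⁻¹ • z) (by
        rw [nr_smul, abs_of_pos (inv_pos.2 hpos), inv_mul_cancel₀ hpos.ne'])
      rw [smul_smul, mul_inv_cancel₀ hpos.ne', one_smul] at h1
      refine L_le fun ε hε => ?_
      filter_upwards [h1] with n hn
      refine hn.trans (mul_le_mul_of_nonneg_left (by linarith) (Nat.cast_nonneg n))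
  rw [dt_add] at h3
  have h4 := nr_le_norm z
  have h5 : δ / ((e : ℝ) + 2) * nr z ≤ δ * ‖z‖ := by
    have h6 : δ / ((e : ℝ) + 2) * nr z ≤ δ / ((e : ℝ) + 2) * (((e : ℝ) + 2) * ‖z‖) :=
      mul_le_mul_of_nonneg_left h4 (by positivity)
    have h7 : δ / ((e : ℝ) + 2) * (((e : ℝ) + 2) * ‖z‖) = δ * ‖z‖ := by
      field_simp
    linarith
  rw [Real.norm_eq_abs, abs_le]
  constructor
  · have : 0 ≤ δ * ‖z‖ := by positivity
    linarith
  · linarith

/-! ### directions -/

lemma continuous_len : Continuous fun z : E e => len z := by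
  unfold len
  fun_prop

lemma abs_le_len (z : E e) (i : Fin (e + 2)) : |z i| ≤ len z := by
  rw [len, ← Real.sqrt_sq_eq_abs]
  exact Real.sqrt_le_sqrt (Finset.single_le_sum (f := fun i => z i ^ 2)
    (fun j _ => sq_nonneg _) (Finset.mem_univ i))

lemma nr_le_len (z : E e) : nr z ≤ ((e : ℝ) + 2) * len z := by
  unfold nr
  calc ∑ i, |z i| ≤ ∑ _i : Fin (e + 2), len z := Finset.sum_le_sum fun i _ => abs_le_len z i
    _ = ((e : ℝ) + 2) * len z := by simp

lemma len_smul (t : ℝ) (z : E e) : len (t • z) = |t| * len z := by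
  unfold len
  have h1 : ∑ i, (t • z) i ^ 2 = t ^ 2 * ∑ i, z i ^ 2 := by
    rw [Finset.mul_sum]
    exact Finset.sum_congr rfl fun i _ => by simp [mul_pow]
  rw [h1, Real.sqrt_mul (sq_nonneg t), Real.sqrt_sq_eq_abs]

lemma len_pos {z : E e} (hz : z ≠ 0) : 0 < len z := by
  obtain ⟨i, hi⟩ := Function.ne_iff.1 hz
  exact lt_of_lt_of_le (abs_pos.2 hi) (abs_le_len z i)

lemma isCompact_len : IsCompact {z : E e | len z = 1} := by
  refine Metric.isCompact_of_isClosed_isBounded (isClosed_eq continuous_len continuous_const) ?_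
  refine (Metric.isBounded_closedBall (x := (0 : E e)) (r := 1)).subset fun z hz => ?_
  rw [mem_closedBall_zero_iff, pi_norm_le_iff_of_nonneg zero_le_one]
  intro i
  have hz' : len z = 1 := hz
  rw [← hz']
  exact abs_le_len z i

lemma continuous_dt (c : E e) : Continuous fun z : E e => dt c z := by
  unfold dt
  fun_prop

lemma vc_ne_zero {v : V e} (hv : v ≠ 0) : vc v ≠ 0 := by
  intro h
  apply hv
  funext i
  have := congrFun h i
  simpa [vc] using this

lemma directed {c : E e} (hc : c ∈ CC q F) {x : ℕ → V e} (hx : Function.Injective x)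
    (hd : Dir q F c x) : DirectedIn x {z : E e | len z = 1 ∧ dt c z = L q F z} := by
  set S := {z : E e | len z = 1 ∧ dt c z = L q F z} with hS
  refine tendsto_order.2 ⟨fun a ha => Eventually.of_forall fun n =>
    lt_of_lt_of_le ha Metric.infDist_nonneg, fun ε hε => ?_⟩
  set K := {z : E e | len z = 1} ∩ {z : E e | ε ≤ Metric.infDist z S} with hKdef
  have hK : IsCompact K := isCompact_len.inter_right
    (isClosed_le continuous_const (Metric.continuous_infDist_pt S))
  have he : (0 : ℝ) < (e : ℝ) + 2 := by positivity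
  obtain ⟨κ, hκ, hκ'⟩ : ∃ κ : ℝ, 0 < κ ∧ ∀ z ∈ K, dt c z + κ ≤ L q F z := by
    rcases K.eq_empty_or_nonempty with h | h
    · exact ⟨1, one_pos, fun z hz => by rw [h] at hz; exact absurd hz (Set.notMem_empty z)⟩
    · obtain ⟨z0, hz0, hmin⟩ := hK.exists_isMinOn h
        ((Pool.Agent.J6H58.DX.continuous_L (q := q) (F := F)).sub (continuous_dt c)).continuousOn
      refine ⟨L q F z0 - dt c z0, ?_, fun z hz => ?_⟩
      · rcases (dt_le_L hc z0).lt_or_eq with h1 | h1
        · linarith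
        · exfalso
          have h2 : z0 ∈ S := ⟨hz0.1, h1⟩
          have h3 := Metric.infDist_zero_of_mem h2
          have h4 : ε ≤ Metric.infDist z0 S := hz0.2
          linarith
      · have h5 : L q F z0 - dt c z0 ≤ L q F z - dt c z := hmin hz
        linarith
  have hev : ∀ᶠ n in atTop, x n ≠ 0 := by
    by_cases h0 : ∃ n, x n = 0
    · obtain ⟨n0, hn0⟩ := h0
      filter_upwards [eventually_gt_atTop n0] with n hn h1
      exact absurd (hx (h1.trans hn0.symm)) hn.ne'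
    · push Not at h0
      exact Eventually.of_forall h0
  filter_upwards [hev, hd (κ / (2 * ((e : ℝ) + 2))) (by positivity)] with n h1 h2
  by_contra hcon
  push Not at hcon
  have hl : 0 < len (vc (x n)) := len_pos (vc_ne_zero h1)
  set t := (len (vc (x n)))⁻¹ with ht
  have htpos : 0 < t := inv_pos.2 hl
  have hlen : len (t • vc (x n)) = 1 := by
    rw [len_smul, abs_of_pos htpos, ht, inv_mul_cancel₀ hl.ne']
  have hzK : t • vc (x n) ∈ K := ⟨hlen, hcon⟩
  have h3 := hκ' _ hzK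
  rw [L_smul htpos, dt_smul] at h3
  have h4 := L_vc (q := q) (F := F) (x n)
  have h5 : t * L q F (vc (x n)) ≤
      t * (lf c (x n) + κ / (2 * ((e : ℝ) + 2)) * n1 (x n)) :=
    mul_le_mul_of_nonneg_left (h4.trans h2) htpos.le
  have h6 : t * (n1 (x n) : ℝ) ≤ (e : ℝ) + 2 := by
    have h7 := nr_le_len (t • vc (x n))
    rw [hlen, mul_one, nr_smul, abs_of_pos htpos, nr_vc] at h7
    exact h7
  have h8 : κ / (2 * ((e : ℝ) + 2)) * (t * (n1 (x n) : ℝ)) ≤
      κ / (2 * ((e : ℝ) + 2)) * ((e : ℝ) + 2) := mul_le_mul_of_nonneg_left h6 (by positivity)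
  have h9 : κ / (2 * ((e : ℝ) + 2)) * ((e : ℝ) + 2) = κ / 2 := by field_simp
  have h10 : t * (lf c (x n) + κ / (2 * ((e : ℝ) + 2)) * n1 (x n)) =
      t * dt c (vc (x n)) + κ / (2 * ((e : ℝ) + 2)) * (t * (n1 (x n) : ℝ)) := by
    unfold lf; ring
  linarith

end Pool.Agent.J6H38.DX
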