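import Pool.Agent.J6H38.DX.Stm
import Pool.Agent.J6H9.NX.Difu

/-!
# Module DIFU (exponential moments)

Port of the proof of helper81 (`Pool/Agent/J6H81/NC/Difu.lean`).
-/

set_option autoImplicit false

open MeasureTheory ProbabilityTheory Filter Topology
open scoped ENNReal

namespace Pool.Agent.J6H38.DX

open Pool.Agent.J6H99.NX Pool.Agent.J6H9.NX

variable {e : ℕ}

/-- MODULE DIFU -/
theorem difu : DifuT := by
  intro e q F _ _ hfar c hc hD δ hδ
  have hb := q.hb
  obtain ⟨c1, hc1, hlow⟩ := L_lower (q := q) (F := F) hfar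
  set A : ℝ := (q.b + 2 * q.b + 3) / c1 with hA
  have hA0 : 0 < A := by positivity
  obtain ⟨s, κ0, hs, hs1, hκ0, hu⟩ := uniform_dif hc hD (δ := δ / (2 * A)) (by positivity)
  -- the integer `Λ`
  set Λ : ℕ := ⌈(2 * q.b + 1) / s⌉₊ with hΛ
  have hΛ1 : (2 * q.b + 1) / s ≤ Λ := Nat.le_ceil _
  have hΛ2 : (Λ : ℝ) < (2 * q.b + 1) / s + 1 := Nat.ceil_lt_add_one (by positivity)
  have hΛs : 2 * q.b + 1 ≤ Λ * s := by rwa [div_le_iff₀ hs] at hΛ1
  have hΛb : 2 * q.b + 1 ≤ Λ := by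
    have : (Λ : ℝ) * s ≤ Λ * 1 := mul_le_mul_of_nonneg_left hs1 (Nat.cast_nonneg _)
    linarith
  have hΛs2 : (Λ : ℝ) * s ≤ 2 * q.b + 2 := by
    have h1 := mul_le_mul_of_nonneg_right hΛ2.le hs.le
    have h2 : ((2 * q.b + 1) / s + 1) * s = 2 * q.b + 1 + s := by field_simp
    linarith
  set κ : ℝ := min 1 κ0 with hκ
  have hκ1 : 0 < κ := lt_min one_pos hκ0
  set ε : ℝ := δ / (2 * ((Λ + 1) / c1 + 1)) with hε
  have hε0 : 0 < ε := by positivity
  obtain ⟨N0, hN0⟩ := g_le_L (e := e) (q := q) (F := F) hε0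
  refine ⟨Λ, ?_, κ, hκ1, N0 + 1, fun m hm x hx1 hx2 z hz => ?_⟩
  · have h1 : (1 : ℝ) ≤ Λ := by linarith
    exact_mod_cast h1
  have hm1 : (1 : ℝ) ≤ m := by
    have : 1 ≤ m := by omega
    exact_mod_cast this
  have hm0 : (0 : ℝ) < m := by linarith
  set N : ℝ := ((n1 x : ℤ) : ℝ) with hN
  have hNx : nr (vc x) = N := nr_vc x
  have hLx : L q F (vc x) ≤ g q F x := L_vc x
  -- bounds for `N`
  have hN1 : (Λ : ℝ) * m ≤ q.b * N := hx1.trans ((hc x).trans (g_le q F x))
  have hN2 : c1 * N ≤ (Λ + 1) * m := by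
    have h1 := hlow (vc x)
    rw [hNx] at h1
    have h2 : κ * m ≤ 1 * m := mul_le_mul_of_nonneg_right (min_le_left _ _) hm0.le
    linarith
  have hNm : (2 * q.b + 1) * m ≤ q.b * N := (mul_le_mul_of_nonneg_right hΛb hm0.le).trans hN1
  have hN2m : 2 * m ≤ N := by
    by_contra hlt
    push Not at hlt
    have h1 := mul_lt_mul_of_pos_left hlt hb
    have h2 : q.b * (2 * (m : ℝ)) = 2 * q.b * m := by ring
    linarith
  have hNpos : 0 < N := by linarith
  -- normalisation
  set x' : E e := N⁻¹ • vc x with hx'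
  have hxx : vc x = N • x' := by rw [hx', smul_smul, mul_inv_cancel₀ hNpos.ne', one_smul]
  have hx'1 : nr x' = 1 := by
    rw [hx', nr_smul, hNx, abs_of_pos (inv_pos.2 hNpos), inv_mul_cancel₀ hNpos.ne']
  have hmN : (m : ℝ) ≤ N * s := by
    have h1 := mul_le_mul_of_nonneg_right hN1 hs.le
    have h2 : (Λ : ℝ) * m * s = (Λ * s) * m := by ring
    have h3 : (2 * q.b + 1) * (m : ℝ) ≤ (Λ * s) * m := mul_le_mul_of_nonneg_right hΛs hm0.le
    by_contra hlt
    push Not at hlt
    have h4 := mul_lt_mul_of_pos_left hlt hb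
    have h5 : q.b * (N * s) = q.b * N * s := by ring
    nlinarith
  have hLx' : L q F x' ≤ dt c x' + κ0 := by
    rw [hx', L_smul (inv_pos.2 hNpos), dt_smul]
    have h1 : L q F (vc x) ≤ dt c (vc x) + κ * m := by
      have h2 : lf c x = dt c (vc x) := rfl
      rw [← h2]
      linarith
    have h2 := mul_le_mul_of_nonneg_left h1 (inv_pos.2 hNpos).le
    have h3 : N⁻¹ * (κ * m) ≤ κ0 := by
      have h4 : κ * (m : ℝ) ≤ κ0 * N := mul_le_mul (min_le_right _ _) (by linarith) hm0.le hκ0.le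
      rw [inv_mul_le_iff₀ hNpos]
      linarith
    rw [mul_add] at h2
    linarith
  set z' : E e := (N * s)⁻¹ • vc z with hz'
  have hNs : 0 < N * s := by positivity
  have hz'1 : nr z' ≤ 1 := by
    rw [hz', nr_smul, nr_vc, abs_of_pos (inv_pos.2 hNs), inv_mul_le_iff₀ hNs, mul_one]
    have h1 : (n1 z : ℝ) ≤ m := by exact_mod_cast hz
    linarith
  have hzz : vc z = N • s • z' := by
    rw [hz', smul_smul, smul_smul, mul_inv_cancel₀ hNs.ne', one_smul]
  have hsum : vc (x + z) = N • (x' + s • z') := by rw [vc_add, hxx, hzz, smul_add]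
  have h1 := hu x' hx'1 hLx' z' hz'1
  have h2 : L q F (vc (x + z)) ≤ lf c (x + z) + N * (δ / (2 * A) * s) := by
    have h3 : lf c (x + z) = dt c (vc (x + z)) := rfl
    rw [h3, hsum, L_smul hNpos, dt_smul]
    have h4 := mul_le_mul_of_nonneg_left h1 hNpos.le
    rw [mul_add N (dt c (x' + s • z'))] at h4
    linarith
  have h3 : N * (δ / (2 * A) * s) ≤ δ / 2 * m := by
    have h4 : N * s ≤ A * m := by
      have h5 := mul_le_mul_of_nonneg_right hN2 hs.le
      have h6 : ((Λ : ℝ) + 1) * m * s ≤ (q.b + 2 * q.b + 3) * m := by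
        have h7 : ((Λ : ℝ) + 1) * m * s = (Λ * s + s) * m := by ring
        rw [h7]
        refine mul_le_mul_of_nonneg_right ?_ hm0.le
        linarith
      have h7 : A * m = ((q.b + 2 * q.b + 3) * m) / c1 := by rw [hA]; ring
      rw [h7, le_div_iff₀ hc1]
      linarith
    have h5 : N * (δ / (2 * A) * s) = δ / (2 * A) * (N * s) := by ring
    rw [h5]
    calc δ / (2 * A) * (N * s) ≤ δ / (2 * A) * (A * m) :=
          mul_le_mul_of_nonneg_left h4 (by positivity)
      _ = δ / 2 * m := by field_simp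
  have h4 : (N0 : ℤ) ≤ n1 (x + z) := by
    have h5 := n1_tri (x + z) z 0
    have h6 : N ≤ n1 (x + z) + n1 z := by
      have h7 := n1_sub_comm (x + z) z
      have h8 := n1_tri x (-z) 0
      have h9 : n1 x ≤ n1 (x + z) + n1 z := by
        have h10 := n1_add_le (x + z) (-z)
        rw [add_neg_cancel_right, n1_neg] at h10
        exact h10
      rw [hN]
      exact_mod_cast h9
    have h7 : (n1 z : ℝ) ≤ m := by exact_mod_cast hz
    have h8 : (m : ℝ) ≤ n1 (x + z) := by linarith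
    have h9 : (N0 : ℝ) ≤ m := by
      have : N0 ≤ m := by omega
      exact_mod_cast this
    have h10 : (N0 : ℝ) ≤ n1 (x + z) := by linarith
    exact_mod_cast h10
  have h5 := hN0 (x + z) h4
  have h6 : ε * (n1 (x + z) : ℝ) ≤ δ / 2 * m := by
    have h7 : (n1 (x + z) : ℝ) ≤ ((Λ + 1) / c1 + 1) * m := by
      have h8 : (n1 (x + z) : ℝ) ≤ N + n1 z := by rw [hN]; exact_mod_cast n1_add_le x z
      have h9 : (n1 z : ℝ) ≤ m := by exact_mod_cast hz
      have h10 : N ≤ (Λ + 1) / c1 * m := by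
        rw [div_mul_eq_mul_div, le_div_iff₀ hc1]
        linarith
      linarith
    calc ε * (n1 (x + z) : ℝ) ≤ ε * (((Λ + 1) / c1 + 1) * m) :=
          mul_le_mul_of_nonneg_left h7 hε0.le
      _ = δ / 2 * m := by rw [hε]; field_simp
  linarith

end Pool.Agent.J6H38.DX
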