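import Pool.Agent.J6H99.NX.Stm

/-!
# Directions of all geodesic rays in planar first-passage percolation: statements of the modules

(DX: weights with an exponential moment, library `Pool/Agent/J6H99/NX`; ports of the proved modules
of DIR, `Pool/Agent/J6H38/DIR`.)

Goal (for `MP_884284_pr`): planar first-passage percolation, i.i.d. weights with a continuous law
with an exponential moment. Almost surely, for every vertex `u`: every geodesic ray from `u` is directed in one face of the
limit shape, and for every face there is a geodesic ray from `u` directed in this face.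

Everything uses only `VarB`, `FarB` and the conclusion of `GeoT` (NO CORNER project of helper99).
Library: `Pool/Agent/J6H99/NC/*`, `J6H81/NC/{G,G2}` (time constant `L q F y`: `L_le_iff`, `L_add`,
`L_smul`, `L_vc`, `dt_le_L`, `supp_iff`, `isCompact_CC`), `J6H63/NC/GL` (`supp_of_approx`,
`supp_closed`, `g_add_le`, `integral_T`), `J6H38/NC/{Ray,Conc}`.
-/

set_option autoImplicit false

open MeasureTheory ProbabilityTheory Filter Topology
open scoped ENNReal

namespace Pool.Agent.J6H38.DX

open Pool.Agent.J6H99.NX

/-- the sequence `x` is directed in the face of the functional `c` -/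
def Dir {e : ℕ} (q : Par) (F : Measure ℝ) [IsProbabilityMeasure F] (c : E e) (x : ℕ → V e) :
    Prop :=
  ∀ η : ℝ, 0 < η → ∀ᶠ k in atTop, g q F (x k) ≤ lf c (x k) + η * n1 (x k)

/-- a minimal path from `0` to the half-space of level `t` passes through a point `z` at distance
at most `m` for which `g z` exceeds `c z` by more than `η m` -/
def BadP {e : ℕ} (q : Par) (F : Measure ℝ) [IsProbabilityMeasure F] (c : E e) (η : ℝ) (m : ℕ)
    (t : ℝ) : Set (Om e) :=
  {ω | ∃ z : V e, n1 z ≤ m ∧ T q ω 0 z + TH q ω c z t ≤ TH q ω c 0 t ∧ lf c z + η * m < g q F z}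

/-- MODULE RATE. A rate of convergence for the cheapest points above a level.

Proof. Let `G m = inf {g z : c z ≥ m} - m ≥ 0` (as `g ≥ c`). By `Supp`, `G M / M → 0`. Let `K = 2`.
Claim: `G (K m) ≥ K (G m - C m^(1-θ))` with `θ = 1 / (2 d + 2)`. Take `z` with `c z ≥ K m`,
`g z ≤ K m + G (K m) + 1`; `n1 z ≤ C m` (`FarB`: `g z ≥ c' n1 z`, see `g_lower` in J6H81/NC/G2). With
probability `≥ 3/4` all `|T x y - g (y - x)| ≤ Δ = C m^(1-θ)` for all `x, y` in the ball of radius
`C m`: mesh of size `~ Δ`, `(m / Δ)^(2d)` pairs of mesh points, Chebyshev (`VarB`) for each pair gives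
`C m / Δ^2`, so `Δ^(2d+2) = C m^(2d+1)` suffices; `T` and `g` are Lipschitz. With probability `≥ 3/4`
no point outside of the ball is reached before `C m` (`FarB`). So for one `ω`: a near minimal walk
`0 → z` stays in the ball; cut it at the first vertices `z_j` with `c z_j ≥ j m`, `j ≤ K`
(`first_hit` in J6H99/NC/Flat): `c (z_{j+1} - z_j) ≥ m - nr c`, so
`T z_j z_{j+1} ≥ g (z_{j+1} - z_j) - Δ ≥ m + G m - C - Δ` and
`K m + G (K m) + 1 + Δ ≥ T 0 z ≥ K (m + G m - C - Δ) - 1`. Iterate:
`G m ≤ G (2^n m) / 2^n + ∑_i C (2^i m)^(1-θ) / 2^i ≤ C' m^(1-θ)`. Compare the first half of the proof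
of `PowT` (J6H47). -/
def RateT : Prop := ∀ (e : ℕ) (q : Par) (F : Measure ℝ) [IsProbabilityMeasure F] [MB q F],
  VarB e q F → FarB e q F → ∀ c y : E e, 0 < dt c y → Supp q F c y →
  ∃ θ C : ℝ, 0 < θ ∧ θ < 1 ∧ 0 ≤ C ∧ ∀ m : ℕ, 1 ≤ m →
    ∃ x : V e, (m : ℝ) ≤ lf c x ∧ g q F x ≤ m + C * (m : ℝ) ^ (1 - θ)

/-- MODULE DIFU. Uniform differentiability along a face, for the mean passage time.

Proof. Let `G = L q F` be the time constant (sublinear, `≥ dt c`, `g ≤ G + o` uniformly: `g x` is at
most `G x + δ |x|` for `|x|` large, by compactness / a finite mesh of directions and `g_sub_le`). For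
`y` in the face (`Supp c y`), `|y| = 1`: by `Dif`, `G (y + s z) ≤ dt c (y + s z) + δ s` for
`s ≤ s0 (y)`, `|z| ≤ 1`. The left side minus `dt c` is convex in `s` and `0` at `s = 0`, so it is
enough to have it for one `s`; for `y'` close to `y` it holds at `s = s0 (y)` with `2 δ`; by
compactness of the face there is one `s* > 0` for all `y` in the face, and then also for all `x` with
`G x ≤ dt c x + κ |x|`, `κ` small (compactness again). Put `Λ ≥ 1 / s*`. -/
def DifuT : Prop := ∀ (e : ℕ) (q : Par) (F : Measure ℝ) [IsProbabilityMeasure F] [MB q F],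
  FarB e q F → ∀ c : E e, (∀ x : V e, lf c x ≤ g q F x) →
  (∀ y : E e, y ≠ 0 → Supp q F c y → Dif q F c y) → ∀ δ : ℝ, 0 < δ →
  ∃ Λ : ℕ, 1 ≤ Λ ∧ ∃ κ : ℝ, 0 < κ ∧ ∃ m0 : ℕ, ∀ m : ℕ, m0 ≤ m → ∀ x : V e,
    (Λ * m : ℝ) ≤ lf c x → g q F x ≤ Λ * m + κ * m → ∀ z : V e, n1 z ≤ m →
      g q F (x + z) ≤ lf c (x + z) + δ * m

/-- MODULE BUSR. Averages of Busemann functions, with a rate.

Proof. `h t = E TH 0 t`, nondecreasing, `h t ≤ C (t + 1)`, `h N ≥ (1 - ε) N` for large `N` (`unif` and
`far` in J6H99/NC/Dev, or `J6H38/NC/Conc.conc`); `E TH z t = h (t - c z)` (translation, for real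
levels). Fix `δ = η / 8`, take `Λ, κ, m0` from `DifuT`, `x` from `RateT` at `Λ m`
(`Λ m ≤ c x`, `g x ≤ Λ m + C (Λ m)^(1-θ)`). Put `S_t = T (-x) 0 - (TH (-x) t - TH 0 t) ≥ 0`. Averages
over `t < N`: `E (TH (-x) t - TH 0 t) = h (t + c x) - h t`, telescoping with `⌊c x⌋` and monotonicity
of `h`: the average is at least `⌊c x⌋ (1 - ε) - C_x / N ≥ c x - 2` for `N ≥ N0`; so the average of
`E S_t` is at most `g x - c x + 2 ≤ C (Λ m)^(1-θ) + 2` and (Markov) the average of
`P (S_t ≥ δ m)` is at most `C' m^(-θ)`. Outside of an event of probability `≤ C'' / m` (mesh of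
bounded cardinality, Chebyshev, translation): `|T (-x) z - g (z + x)| ≤ δ m` and
`|T 0 z - g z| ≤ δ m` for all `n1 z ≤ m` (`z = 0` included). On the good events, for `n1 z ≤ m` on a
minimal path: `T 0 z ≤ TH 0 t - TH z t ≤ TH (-x) t - (T (-x) 0 - δ m) - TH z t ≤ T (-x) z - T (-x) 0 +
δ m ≤ g (x + z) - g x + 3 δ m ≤ c (x + z) - c x + 4 δ m = c z + 4 δ m`, so `g z ≤ c z + 5 δ m`: not
bad. For `m < m0` (and where `κ m < C (Λ m)^(1-θ)`) take the constant `C` large (probabilities are
at most `1`). -/
def BusRT : Prop := RateT → DifuT → ∀ (e : ℕ) (q : Par) (F : Measure ℝ) [IsProbabilityMeasure F] [MB q F],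
  VarB e q F → FarB e q F → ∀ c y : E e, 0 < dt c y → Supp q F c y →
  (∀ y' : E e, y' ≠ 0 → Supp q F c y' → Dif q F c y') → ∀ η : ℝ, 0 < η →
  ∃ θ C : ℝ, 0 < θ ∧ 0 ≤ C ∧ ∀ m : ℕ, 1 ≤ m → ∃ N0 : ℕ, ∀ N : ℕ, N0 ≤ N →
    ∑ t ∈ Finset.range N, PM e F (BadP q F c η m t) ≤
      ENNReal.ofReal (C * (m : ℝ) ^ (-θ) * N)

/-- MODULE RAYR (helper38). A ray directed in a given face. -/
def RayRT : Prop := ∀ (e : ℕ) (q : Par) (F : Measure ℝ) [IsProbabilityMeasure F] [MB q F],
  FarB e q F → ∀ c y : E e, 0 < dt c y →
  (∀ η : ℝ, 0 < η → ∃ θ C : ℝ, 0 < θ ∧ 0 ≤ C ∧ ∀ m : ℕ, 1 ≤ m → ∃ N0 : ℕ, ∀ N : ℕ, N0 ≤ N →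
    ∑ t ∈ Finset.range N, PM e F (BadP q F c η m t) ≤
      ENNReal.ofReal (C * (m : ℝ) ^ (-θ) * N)) →
  ∀ᵐ ω ∂(PM e F), ∃ x : ℕ → V e, Ray q ω x ∧ Dir q F c x

/-- rays which meet have the same initial segments -/
def Uniq {e : ℕ} (q : Par) (ω : Om e) : Prop :=
  ∀ x x' : ℕ → V e, Ray q ω x → Ray q ω x' → ∀ m n : ℕ, x m = x' n →
    m = n ∧ ∀ k : ℕ, k ≤ m → x k = x' k

/-- MODULE UNIQ. For a continuous law minimal paths are unique.

Proof. For two different self-avoiding walks `p ≠ p'` from `0` to `v` some edge `s` is in one of them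
only; the difference of the costs is `± w (ω s)` plus a function of the other edges; `w (ω s)` has no
atoms and is independent of the other edges (`indep_MS` with `{s}` and its complement), so equality
has probability `0`; there are countably many pairs of walks (`countable_walk`). If `x m = x' n`, the
initial segments of the two rays are self-avoiding walks from `0` to the same point, both of cost
`T 0 (x m)` (sum over the edges, `Ray`; see `cost_eq_sum` in J6H38/NC/Ray), hence equal. -/
def UniqT : Prop := ∀ (e : ℕ) (q : Par) (F : Measure ℝ) [IsProbabilityMeasure F],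
  (∀ t : ℝ, F {s | q.w s = t} = 0) → ∀ᵐ ω ∂(PM e F), Uniq q ω

/-- MODULE TOPO. Two paths from `0`, one to the right and one to the left (in the coordinate `i`),
separate the plane.

Proof. By symmetry `i = 0`, `j = 1` (swap the coordinates). Let `E s` (in `ZMod 2`) be the number of
`n` with `s(X n, X (n+1)) = s` plus the same for `X'` (finite, since `X n i → ∞`, `X' n i → -∞`). At
every vertex the sum of `E` over the four edges is even: at `v` every visit at time `n ≥ 1` counts
twice, and at `0` there is one more for each of `X`, `X'`. Hence there is a potential `σ` on the unit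
squares `(a, b)` (lower left corner) with `σ (a, b) - σ (a - 1, b) = E (vertical edge (a,b)-(a,b+1))`
and `σ (a, b) - σ (a, b - 1) = E (horizontal edge (a,b)-(a+1,b))` (define it by sums along the row `0`
and then along the column). If `v` is not on `X`, `X'`, the four squares at `v` have the same value;
so `σ` (of the square with lower left corner `v`) is the same for neighbours `v, v'` which are both
not on `X, X'`, hence constant along the walk `P`. But `σ (a) - σ (b)` is the sum of `E` over the
horizontal edges from column `a 0` to column `a 0 + 1` between the heights `b 1` and `a 1`, i.e. over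
all of them, which is odd: exactly one of `X`, `X'` crosses from `{x ≤ a 0}` to `{x ≥ a 0 + 1}` an odd
number of times. -/
def TopoT : Prop := ∀ (i j : Fin (0 + 2)), i ≠ j → ∀ (X X' : ℕ → V 0), X 0 = 0 → X' 0 = 0 →
  (∀ n, (lat 0).Adj (X n) (X (n + 1))) → (∀ n, (lat 0).Adj (X' n) (X' (n + 1))) →
  Tendsto (fun n => X n i) atTop atTop → Tendsto (fun n => X' n i) atTop atBot →
  ∀ (a b : V 0) (P : (lat 0).Walk a b), a i = b i →
  (∀ n, X n ∉ P.support) → (∀ n, X' n ∉ P.support) →
  (∀ n, (X n i = a i ∨ X n i = a i + 1) → b j < X n j ∧ X n j < a j) →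
  (∀ n, (X' n i = a i ∨ X' n i = a i + 1) → b j < X' n j ∧ X' n j < a j) → False

/-- the determinant of two planar vectors -/
def cr (u v : E 0) : ℝ := u 0 * v 1 - u 1 * v 0

/-- the conclusion of `GeoT`: in every direction there is exactly one supporting functional -/
def Smooth (q : Par) (F : Measure ℝ) [IsProbabilityMeasure F] : Prop :=
  ∀ y : E 0, y ≠ 0 → ∃ c : E 0, Supp q F c y ∧ Dif q F c y ∧ 0 < dt c y ∧
    ∀ c' : E 0, Supp q F c' y → c' = c

/-- MODULE CORE. Two rays directed in opposite faces separate directions.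

Proof. Let `K = {k : |k|_1 = 1, Supp c k}`: compact (`supp_closed`), connected (a convex cone without
`0`, minus rays: `dt c > 0` on it), not empty. `y0` is strictly to the right, `y1` strictly to the
left of all `k ∈ K`. By the uniqueness in `Smooth` and the lattice symmetries (reflections; `g` is
invariant: `T_act`, `flip`), if `K` contains `± e_2` then `c 0 = 0`, and if it contains `± e_1` then
`c 1 = 0`; as `c ≠ 0`, `K` does not meet both axes, so (connectedness) `K` is in one of the four open
half-planes `{k 0 > 0}`, `{k 0 < 0}`, `{k 1 > 0}`, `{k 1 < 0}`; say `{k 0 > 0}` (the others are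
similar, with the roles of the coordinates or of `X`, `X'` exchanged in `TopoT`). As `X` is directed
in `K` (`Dir`, compactness: the limit points of `X n / |X n|` support `c`), `X n 0 → ∞`, and
`X' n 0 → -∞` (directed in `-K`). The vectors `y1` and `e_2` are in the open convex cone
`U = {v : cr k v > 0 for all k ∈ K}`, so by compactness `cr k v ≥ κ |v|` for `k ∈ K` and `v` in the
segment `[y1, e_2]` and in a neighbourhood of the cone over it; on the other hand all vertices `v` of
`X, X'` outside of a ball have `|cr k v| ≤ (κ / 2) |v|` for some `k ∈ K`. So a lattice walk near the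
real segment (`Ev_seg`) from `a` to the point `(0, j1)`, `j1` large (larger than all vertices of `X`,
`X'` in the columns `0, 1`) does not meet `X, X'`, if `a` is far and near the direction `y1`.
Similarly from `b` to `(0, -j1)`. Together with `P` this contradicts `TopoT`. -/
def CoreT : Prop := TopoT → ∀ (q : Par) (F : Measure ℝ) [IsProbabilityMeasure F] [MB q F],
  VarB 0 q F → FarB 0 q F → Smooth q F → ∀ c k0 : E 0, k0 ≠ 0 → Supp q F c k0 →
  ∀ X X' : ℕ → V 0, X 0 = 0 → X' 0 = 0 →
  (∀ n, (lat 0).Adj (X n) (X (n + 1))) → (∀ n, (lat 0).Adj (X' n) (X' (n + 1))) →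
  Function.Injective X → Function.Injective X' → Dir q F c X → Dir q F (-c) X' →
  ∀ y0 y1 : E 0, (∀ k : E 0, k ≠ 0 → Supp q F c k → 0 < cr y0 k ∧ 0 < cr k y1) →
  ∃ R ε : ℝ, 0 < ε ∧ ∀ (a b : V 0) (P : (lat 0).Walk a b), R ≤ n1 a → R ≤ n1 b →
    nr (vc a - (n1 a / nr y1 : ℝ) • y1) ≤ ε * n1 a →
    nr (vc b - (n1 b / nr y0 : ℝ) • y0) ≤ ε * n1 b →
    (∀ n, X n ∉ P.support) → (∀ n, X' n ∉ P.support) → False

/-- MODULE BETW. A rational face strictly between two directions which are not in the same face
(up to exchanging them).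

Proof. `y0` supports `c0`, `y1` supports `c1`, `c0 ≠ c1` (unique). If `y1` is not a multiple of `y0`,
on the open segment from `y0` to `y1` the sets of the `y` which support `c0` resp. `c1` together with
the end points are closed, disjoint and not empty, so by connectedness (or a supremum) there is a
point `y` in between with another functional, an open condition (`supp_closed`), so there is a
lattice direction `y` with this property in the open cone. Its face is a convex cone which contains
`y` and neither `y0` nor `y1` nor `-y0`, `-y1` (as `dt c > 0` on the face and it is convex), hence it is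
inside the open cone: `cr y0 k > 0`, `cr k y1 > 0` for all `k` in the face (if `cr y0 y1 > 0`; otherwise
exchange). If `y1` is a negative multiple of `y0`: take a lattice direction `y` with functional
different from `± c0`, `± c1` and use the connectedness of the face. -/
def BetwT : Prop := ∀ (q : Par) (F : Measure ℝ) [IsProbabilityMeasure F] [MB q F],
  FarB 0 q F → Smooth q F → ∀ c0 y0 y1 : E 0, y0 ≠ 0 → y1 ≠ 0 → Supp q F c0 y0 →
  ¬ Supp q F c0 y1 → ∃ (c : E 0) (v : V 0), v ≠ 0 ∧ Supp q F c (vc v) ∧
    ((∀ k : E 0, k ≠ 0 → Supp q F c k → 0 < cr y0 k ∧ 0 < cr k y1) ∨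
      (∀ k : E 0, k ≠ 0 → Supp q F c k → 0 < cr y1 k ∧ 0 < cr k y0))

/-- for every rational direction there is a ray directed in its face -/
def RatRays (q : Par) (F : Measure ℝ) [IsProbabilityMeasure F] (ω : Om 0) : Prop :=
  ∀ (c : E 0) (v : V 0), v ≠ 0 → Supp q F c (vc v) → ∃ x : ℕ → V 0, Ray q ω x ∧ Dir q F c x

/-- MODULE PLANA. Every ray is directed in a face.

Proof. Let `ξ` be a ray; let `y0` be a limit point of `ξ n / |ξ n|` (`|y0|_1 = 1`), `c0` its
functional. If `ξ` is not directed in the face of `c0`, there is another limit point `y1` which does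
not support `c0` (compactness; `supp_of_approx` in J6H63/NC/GL). Take `c, v` from `BetwT`; `RatRays`
gives `X` for `c` and `X'` for `-c` (`-v` supports `-c`: `g (-x) = g x`). If `ξ` meets `X` infinitely
often, `ξ = X` by `Uniq`, but then all limit directions of `ξ` support `c`, contradiction (`cr y0 k >
0` for `k = y0`). Same for `X'`. So after some time `ξ` avoids `X`, `X'`, and it is near the direction
`y0` and near `y1` infinitely often: contradiction to `CoreT` for the walk along `ξ` between two such
times. -/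
def PlanAT : Prop := TopoT → CoreT → BetwT → ∀ (q : Par) (F : Measure ℝ) [IsProbabilityMeasure F] [MB q F],
  VarB 0 q F → FarB 0 q F → Smooth q F → ∀ ω : Om 0, Uniq q ω → RatRays q F ω →
  ∀ x : ℕ → V 0, Ray q ω x → ∃ c y : E 0, y ≠ 0 ∧ Supp q F c y ∧ Dir q F c x

/-- MODULE PLANB. There is a ray directed in every face.

Proof. Let `Supp c y0`, `|y0|_1 = 1`. Take lattice directions `v_n / |v_n| → y0`, `c_n` their
functionals (`c_n → c` by compactness and uniqueness), `X_n` rays directed in the faces of `c_n`
(`RatRays`). A limit `ξ` of the `X_n` (König; ultrafilter, see `konig` in J6H38/NC/Ray: for every `L`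
there are arbitrarily large `n` with `X_n k = ξ k` for `k ≤ L`) is a ray. By `PlanAT` it is directed
in the face of some `c'`, with limit direction `y1`. Suppose `c' ≠ c`: `Supp c y0`, not `Supp c y1`.
`BetwT` gives `d, v`, `RatRays` rays `X`, `X'` for `d`, `-d`. `ξ ≠ X, X'` (directions), so `ξ` meets
them only finitely often. For large `n` the whole face of `c_n` is on the side of `y0` of the line of
the face of `d` (compactness of the faces; connectedness), so `X_n` is finally far and near a
direction `y0'` with `cr y0' k > 0` (pass to a limit direction of `X_n`; `CoreT` can be applied with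
`y0'` in place of `y0`; to have `R, ε` uniform in `n`, use that the limit directions of `X_n` are in a
compact set `Y` on the side of `y0` and a finite cover of `Y` by the neighbourhoods of `CoreT`). At
time `L` (large) `X_n L = ξ L` is near `y1`. So `X_n` meets `X` or `X'` after time `L`; by `Uniq`
`X_n` and `X` agree up to this time, so `ξ` and `X` agree up to time `L`. As `L` is arbitrary, `ξ = X`
or `ξ = X'`, contradiction. -/
def PlanBT : Prop := TopoT → CoreT → BetwT → PlanAT → ∀ (q : Par) (F : Measure ℝ)
  [IsProbabilityMeasure F] [MB q F], VarB 0 q F → FarB 0 q F → Smooth q F → ∀ ω : Om 0, Uniq q ω →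
  RatRays q F ω → ∀ c y : E 0, y ≠ 0 → Supp q F c y → ∃ x : ℕ → V 0, Ray q ω x ∧ Dir q F c x

end Pool.Agent.J6H38.DX
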