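import Pool.Agent.J6H38.DX.Stm2
import Pool.Agent.J6H38.DX.RayR
import Pool.Agent.J6H38.DX.Rate
import Pool.Agent.J6H9.NX.Geo
import Pool.Agent.J6H38.DX.Difu
import Pool.Agent.J6H62.DX.BusR
import Pool.Agent.J6H22.DX.Uniq
import Pool.Agent.J6H92.DX.Topo
import Pool.Agent.J6H49.DX.Betw
import Pool.Agent.J6H51.DX.PlanA
import Pool.Agent.J6H58.DX.PlanB

/-!
# Directions of all geodesic rays: assembly in the canonical model (exponential moments)
-/

set_option autoImplicit false

open MeasureTheory ProbabilityTheory Filter Topology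
open scoped ENNReal

namespace Pool.Agent.J6H38.DX

open Pool.Agent.J6H99.NX

/-- rays in all rational directions -/
theorem rat_rays {q : Par} {F : Measure ℝ} [IsProbabilityMeasure F] [MB q F] (hvar : VarB 0 q F)
    (hfar : FarB 0 q F) (hsm : Smooth q F) : ∀ᵐ ω ∂(PM 0 F), RatRays q F ω := by
  have hc : Countable (V 0) := inferInstance
  have h1 : ∀ v : V 0, ∀ᵐ ω ∂(PM 0 F), v ≠ 0 → ∀ c : E 0, Supp q F c (vc v) →
      ∃ x : ℕ → V 0, Ray q ω x ∧ Dir q F c x := by
    intro v
    by_cases hv : v = 0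
    · exact Eventually.of_forall fun ω h => absurd hv h
    · have hv' : vc v ≠ 0 := by
        intro h
        apply hv
        funext i
        have := congrFun h i
        simpa [vc] using this
      obtain ⟨c, hc, -, hpos, huniq⟩ := hsm (vc v) hv'
      have hdif : ∀ y' : E 0, y' ≠ 0 → Supp q F c y' → Dif q F c y' := by
        intro y' hy' hs
        obtain ⟨c', _, hd, _, hu⟩ := hsm y' hy'
        rw [hu c hs]
        exact hd
      have hb := Pool.Agent.J6H62.DX.busr rate difu 0 q F hvar hfar c (vc v)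
        hpos hc hdif
      filter_upwards [rayr 0 q F hfar c (vc v) hpos hb] with ω hω _ c' hc'
      rw [huniq c' hc']
      exact hω
  filter_upwards [ae_all_iff.2 h1] with ω hω c v hv hc
  exact hω v hv c hc

/-- the directions of the rays from the origin -/
theorem dirs_zero (hcore : CoreT) {q : Par} {F : Measure ℝ} [IsProbabilityMeasure F] [MB q F]
    (hvar : VarB 0 q F)
    (hfar : FarB 0 q F) (hsm : Smooth q F) (hat : ∀ t : ℝ, F {s | q.w s = t} = 0) :
    ∀ᵐ ω ∂(PM 0 F), Dirs q F ω (0 : V 0) := by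
  filter_upwards [rat_rays hvar hfar hsm, Pool.Agent.J6H22.DX.uniq 0 q F hat] with ω h1 h2
  refine ⟨fun x hx => ?_, fun c y hy hc => ?_⟩
  · exact Pool.Agent.J6H51.DX.plana Pool.Agent.J6H92.DX.topo hcore
      Pool.Agent.J6H49.DX.betw q F hvar hfar hsm ω h2 h1 x hx
  · exact Pool.Agent.J6H58.DX.planB Pool.Agent.J6H92.DX.topo hcore
      Pool.Agent.J6H49.DX.betw Pool.Agent.J6H51.DX.plana q F hvar hfar hsm ω h2 h1 c y hy hc

/-- the canonical model: the limit shape is smooth, the shape theorem, and the directions of all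
geodesic rays -/
theorem canon (hcore : CoreT) (hshape : ShapeT) (hnondeg : NonDegT) (hallu : AllUT)
    (hlaw : LawT)
    (hnocor : ∀ (e : ℕ) (q : Par) (F : Measure ℝ) [IsProbabilityMeasure F] [MB q F],
      VarB e q F → FarB e q F → NonDeg q F → NoCor e q F)
    (q : Par) (F : Measure ℝ) [IsProbabilityMeasure F] [MB q F]
    (hat : ∀ t : ℝ, F {s | q.w s = t} = 0) :
    FarB 0 q F ∧ Smooth q F ∧
      (∀ᵐ ω ∂(PM 0 F), Tendsto (fun v : V 0 => T q ω 0 v / Pool.Agent.J6H9.NX.L q F (vc v))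
        cofinite (𝓝 1)) ∧
      ∀ᵐ ω ∂(PM 0 F), ∀ u : V 0, Dirs q F ω u := by
  obtain ⟨hnd, hpos⟩ := hnondeg q F hat
  obtain ⟨hV, hF⟩ := hlaw 0 q F hpos
  have hNC := hnocor 0 q F hV hF hnd
  have hsm : Smooth q F := Pool.Agent.J6H9.NX.geo q F hF (hNC (Fin 2))
  exact ⟨hF, hsm, hshape 0 q F hV hF, hallu 0 q F (dirs_zero hcore hV hF hsm hat)⟩

end Pool.Agent.J6H38.DX
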