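import Pool.Agent.J6H38.DX.Fin
import Pool.Agent.J6H9.DX.Core
import Pool.Agent.J6H54.DX.Shape
import Pool.Agent.J6H23.DX.NonDeg
import Pool.Agent.J6H23.DX.AllU
import Pool.Agent.J6H48.NX.Law
import Pool.Agent.J6H48.NX.First
import Pool.Agent.J6H47.NX.Fin13
import Pool.Agent.J6H59.NX.ClGeo
import Pool.Agent.J6H23.NX.Core
import Pool.Agent.J6H99.NX.ClG
import Pool.Agent.J6H75.NX.SS
import Pool.Agent.J6H75.NX.Reach
import Pool.Agent.J6H72.NX.Power
import Pool.Agent.J6H81.NX.U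

/-!
# Directions of all geodesic rays: all modules except for GROW
-/

set_option autoImplicit false

open MeasureTheory ProbabilityTheory Filter Topology
open scoped ENNReal

namespace Pool.Agent.J6H38.DX

open Pool.Agent.J6H38.DIR
open Pool.Agent.J6H99.NX

/-- **No corners**, for laws with an exponential moment. -/
theorem nocor (hGrow : GrowT) (e : ℕ) (q : Par) (F : Measure ℝ) [IsProbabilityMeasure F] [MB q F]
    (hV : VarB e q F) (hF : FarB e q F) (hN : NonDeg q F) : NoCor e q F :=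
  Pool.Agent.J6H47.NX.nocor_of
    (Pool.Agent.J6H59.NX.clgeo (Pool.Agent.J6H23.NX.Core.core Pool.Agent.J6H48.NX.first
      Pool.Agent.J6H99.NX.trials Pool.Agent.J6H99.NX.chain))
    Pool.Agent.J6H75.NX.SS.ss hGrow Pool.Agent.J6H72.NX.power Pool.Agent.J6H81.NX.u
    Pool.Agent.J6H75.NX.Reach.reach e q F hV hF hN

/-- **Directions of all geodesic rays**, exponential moments. -/
theorem res (hGrow : GrowT) (μ : Measure ℝ) [IsProbabilityMeasure μ] [NullSingletonClass μ]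
    (h0 : μ (Set.Iio 0) = 0)
    (hexp : ∃ β : ℝ, 0 < β ∧ Integrable (fun r => Real.exp (β * r)) μ) :
    ∃ G : (Fin 2 → ℝ) → ℝ, (∀ x, x ≠ 0 → 0 < G x) ∧ (∀ (s : ℝ) (x : Fin 2 → ℝ),
      G (s • x) = |s| * G x) ∧ (∀ x y, G (x + y) ≤ G x + G y) ∧
      (∀ x, x ≠ 0 → DifferentiableAt ℝ G x) ∧
      ¬ {x : Fin 2 → ℝ | len x = 1 ∧ face G x = {x}}.Countable ∧
      ∀ (Ω : Type) (mΩ : MeasurableSpace Ω) (P : Measure Ω), IsProbabilityMeasure P →
      ∀ (t : Sym2 (Fin 2 → ℤ) → Ω → ℝ), (∀ e, Measurable (t e)) →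
        iIndepFun (fun e : {e : Sym2 (Fin 2 → ℤ) //
          ∃ x y : Fin 2 → ℤ, e = s(x, y) ∧ ∑ i, |x i - y i| = 1} => t e.1) P →
        (∀ x y : Fin 2 → ℤ, ∑ i, |x i - y i| = 1 → Measure.map (t s(x, y)) P = μ) →
        ∀ᵐ ω ∂P, Good G (fun e => t e ω) :=
  fin Pool.Agent.J6H9.DX.core Pool.Agent.J6H54.DX.shape Pool.Agent.J6H23.DX.nondeg
    Pool.Agent.J6H23.DX.allu Pool.Agent.J6H48.NX.law (nocor hGrow) μ h0 hexp

end Pool.Agent.J6H38.DX
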