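import Pool.Agent.J6H38.DX.Stm
import Pool.Agent.J6H99.NX.Stm3
import Pool.Agent.J6H9.NX.G2

/-!
# Directions of all geodesic rays: statements of the final steps

(DX: weights with an exponential moment.) `L q F y` is the time constant (`Pool.Agent.J6H9.NX.L`).
-/

set_option autoImplicit false

open MeasureTheory ProbabilityTheory Filter Topology
open scoped ENNReal

namespace Pool.Agent.J6H38.DX

open Pool.Agent.J6H99.NX Pool.Agent.J6H9.NX

/-- MODULE SHAPE. The shape theorem, in the canonical model.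

Proof. As in `J6H38/NC/Conc.conc` (the bound is `C' / R`, see the last lines of its proof):
`P (some y, |y| ≤ K R, δ R < |T 0 y - g y|) ≤ C' / R`. Take `R = 2^k`, Borel-Cantelli
(`measure_limsup_atTop_eq_zero`): almost surely for all large `k` and all `|y| ≤ 2^k`:
`|T 0 y - g y| ≤ δ 2^k`, for all `δ = 1 / n`. And `L (vc y) ≤ g y ≤ L (vc y) + ε |y|` for large `|y|`
(`L_vc`; `g_le_L` in J6H81/NC/Difu), `c |y| ≤ L (vc y)` (`L_lower`). -/
def ShapeT : Prop := ∀ (e : ℕ) (q : Par) (F : Measure ℝ) [IsProbabilityMeasure F] [MB q F],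
  VarB e q F → FarB e q F →
  ∀ᵐ ω ∂(PM e F), Tendsto (fun v : V e => T q ω 0 v / L q F (vc v)) cofinite (𝓝 1)

/-- MODULE NONDEG. Continuous laws are nondegenerate.

Proof. `F {q.w ≤ 0} = F {q.w = 0} = 0` (`w_nonneg`). The distribution function `t ↦ F {q.w ≤ t}` of
the law `F.map q.w` (no atoms) is continuous, `0` at `0` and `1` at `b`; take `a'` with a value in
`(0, 1)`; then `F {q.w > a'} > 0`, so `F {q.w ≥ b'} > 0` for some `b' > a'` (continuity of the
measure). -/
def NonDegT : Prop := ∀ (q : Par) (F : Measure ℝ) [IsProbabilityMeasure F],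
  (∀ t : ℝ, F {s | q.w s = t} = 0) → NonDeg q F ∧ F {t | q.w t ≤ 0} = 0

/-- geodesic rays from `u` -/
def RayU {e : ℕ} (q : Par) (ω : Om e) (u : V e) (x : ℕ → V e) : Prop :=
  x 0 = u ∧ (∀ n, (lat e).Adj (x n) (x (n + 1))) ∧ Function.Injective x ∧
    ∀ m n, m ≤ n → T q ω (x m) (x n) = ∑ k ∈ Finset.Ico m n, q.w (ω s(x k, x (k + 1)))

/-- every ray from `u` is directed in a face, and there is a ray directed in every face -/
def Dirs {e : ℕ} (q : Par) (F : Measure ℝ) [IsProbabilityMeasure F] (ω : Om e) (u : V e) : Prop :=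
  (∀ x : ℕ → V e, RayU q ω u x → ∃ c y : E e, y ≠ 0 ∧ Supp q F c y ∧ Dir q F c x) ∧
    ∀ c y : E e, y ≠ 0 → Supp q F c y → ∃ x : ℕ → V e, RayU q ω u x ∧ Dir q F c x

/-- MODULE ALLU. From the origin to all vertices.

Proof. `act (tr u)` preserves `PM e F` (`act_mp`), and `x` is a ray from `0` for `act (tr u) ω` iff
`k ↦ x k + u` is a ray from `u` for `ω` (`T_act`). `Dir` is invariant under translations of the
sequence: `|g (x + u) - g x| ≤ b |u|`, `|lf c u| ≤ nr c * n1 u` and `n1 (x k) → ∞` (injective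
sequence; `ray_n1_tendsto` in J6H38/DIR/RayR). There are countably many `u` (`ae_all_iff`). -/
def AllUT : Prop := ∀ (e : ℕ) (q : Par) (F : Measure ℝ) [IsProbabilityMeasure F] [MB q F],
  (∀ᵐ ω ∂(PM e F), Dirs q F ω (0 : V e)) → ∀ᵐ ω ∂(PM e F), ∀ u : V e, Dirs q F ω u

end Pool.Agent.J6H38.DX
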